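import Pool.Agent.helper10.NCA.SpecB
import Pool.Agent.helper4.P2G.ITE

/-!
# Project p2k: (MP_70a088_an, P2), row p2k:EUL: Euler, uniform in the number of steps
-/

set_option autoImplicit false

open Complex Metric Set Filter Topology MeasureTheory
open Pool.Agent.helper98.ILF
open WP (it)
open HY (UD T S hd UN RM)
open PM
open P2 (SS FL FLS CLS FR TL)
open PL (TP LO PZ GJ INR PG DK ht tr DI CY hG)
open P2G (PV yy rr FJ PD)
open V3 (Chain chi)
open EG (wnd)
open CH (Off)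
open P2Z (nt ji)

noncomputable section

namespace NCA

theorem EUL : EUL_stmt := by
  intro U g V ε hU hε hε0 hVd hgV ρ hρ
  obtain ⟨M, hM⟩ := (isCompact_closedBall (0 : ℂ) (3 * (4 * ρ) / 4)).exists_bound_of_continuousOn hVd.continuous.continuousOn
  have hM0 : 0 ≤ M := (norm_nonneg _).trans (hM 0 (mem_closedBall_self (by positivity)))
  have hsub2 : closedBall (0 : ℂ) (4 * ρ / 2) ⊆ closedBall 0 (3 * (4 * ρ) / 4) := closedBall_subset_closedBall (by linarith)
  have hM' : ∀ w ∈ closedBall (0 : ℂ) (4 * ρ / 2), ‖V w‖ ≤ M := fun w hw => hM w (hsub2 hw)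
  obtain ⟨L, hLdef⟩ : ∃ L : ℝ, L = M / ρ := ⟨_, rfl⟩
  have hL0 : 0 ≤ L := by rw [hLdef]; positivity
  have hder : ∀ x ∈ closedBall (0 : ℂ) (4 * ρ / 2), ‖deriv V x‖ ≤ L := by
    intro x hx
    have hsubx : closedBall x ρ ⊆ closedBall 0 (3 * (4 * ρ) / 4) := by
      apply closedBall_subset_closedBall'
      rw [mem_closedBall] at hx
      linarith
    rw [hLdef]
    apply Complex.norm_deriv_le_of_forall_mem_sphere_norm_le hρ
    · exact hVd.differentiableOn.diffContOnCl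
    · intro z hz
      exact hM z (hsubx (sphere_subset_closedBall hz))
  have hL : ∀ u ∈ closedBall (0 : ℂ) (4 * ρ / 2), ∀ v ∈ closedBall (0 : ℂ) (4 * ρ / 2), ‖V u - V v‖ ≤ L * ‖u - v‖ := by
    intro u hu v hv
    exact (convex_closedBall (0 : ℂ) (4 * ρ / 2)).norm_image_sub_le_of_norm_deriv_le (fun x _ => hVd x) hder hv hu
  have ht0 : 0 < 4 * ρ / (8 * (M + 1)) := by positivity
  refine ⟨4 * ρ / (8 * (M + 1)), L * (M + 1) + 1, ht0, by positivity, fun η hη => ?_⟩
  have hδ : 0 < min 1 η := lt_min one_pos hη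
  have htM : 4 * ρ / (8 * (M + 1)) * (M + 1) ≤ 4 * ρ / 8 := by
    have : 4 * ρ / (8 * (M + 1)) * (M + 1) = 4 * ρ / 8 := by field_simp
    exact this.le
  have h1 := (tendstoLocallyUniformlyOn_iff_forall_isCompact isOpen_univ).1 hgV (closedBall 0 (4 * ρ / 2)) (subset_univ _) (isCompact_closedBall _ _)
  rw [Metric.tendstoUniformlyOn_iff] at h1
  filter_upwards [h1 (min 1 η) hδ] with j hj N hN w hw
  have hun : ∀ x ∈ closedBall (0 : ℂ) (4 * ρ / 2), ‖g j x - x - (ε j : ℂ) * V x‖ ≤ ε j * min 1 η := by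
    intro x hx
    have h2 := (hj x hx).le
    rw [dist_comm, dist_eq_norm] at h2
    have h3 : ((ε j : ℝ) : ℂ) ≠ 0 := by exact_mod_cast (hε j).ne'
    have e1 : g j x - x - (ε j : ℂ) * V x = (ε j : ℂ) * ((g j x - x) / (ε j : ℂ) - V x) := by
      field_simp
    rw [e1, norm_mul, Complex.norm_real, Real.norm_of_nonneg (hε j).le]
    exact mul_le_mul_of_nonneg_left h2 (hε j).le
  have hw' : w ∈ ball (0 : ℂ) (4 * ρ / 4) := by
    rw [show 4 * ρ / 4 = ρ by ring]
    exact hw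
  obtain ⟨-, -, h3⟩ := P2G.ITE_iter hM0 hL0 (hε j) (min_le_left 1 η) hM' hL hun htM (by positivity) N hN w hw'
  refine h3.trans ?_
  have hNe : 0 ≤ (N : ℝ) * ε j := mul_nonneg (Nat.cast_nonneg _) (hε j).le
  have h4 : (N : ℝ) * ε j * min 1 η ≤ (N : ℝ) * ε j * η := mul_le_mul_of_nonneg_left (min_le_right _ _) hNe
  have h5 : 0 ≤ ((N : ℝ) * ε j) ^ 2 := sq_nonneg _
  nlinarith

end NCA
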